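import Mathlib

namespace Pool.Agent.H.MP_da2747_an
open MeasureTheory Set Filter Topology ENNReal Complex

noncomputable def En (f : ℂ → ℝ) : ℝ≥0∞ := ∫⁻ z, ‖fderiv ℝ f z‖ₑ ^ 2

lemma tonelli {F : ℂ → ℝ≥0∞} (hF : Measurable F) : ∫⁻ z, F z = ∫⁻ y : ℝ, ∫⁻ x : ℝ, F ⟨x, y⟩ := by
  rw [← volume_preserving_equiv_real_prod.symm.lintegral_comp hF, Measure.volume_eq_prod]
  exact lintegral_prod_symm _ (hF.comp measurableEquivRealProd.symm.measurable).aemeasurable

lemma seg {f : ℂ → ℝ} (hf : LocallyLipschitz f) {y : ℝ}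
    (hy : ∀ᵐ x : ℝ, DifferentiableAt ℝ f ⟨x, y⟩) {a b : ℝ} (l : ℝ) (hab : a ≤ b) :
    ENNReal.ofReal (2 * l * (f ⟨a, y⟩ - f ⟨b, y⟩) - l ^ 2 * (b - a)) ≤
      ∫⁻ x in Ioc a b, ‖fderiv ℝ f ⟨x, y⟩‖ₑ ^ 2 := by
  have e : ∀ x : ℝ, (⟨x, y⟩ : ℂ) = x + y * I := fun x => by simp [Complex.ext_iff]
  have hd : ∀ x : ℝ, HasDerivAt (fun x : ℝ => (⟨x, y⟩ : ℂ)) 1 x := fun x => by
    simp only [e]
    exact (ofRealCLM.hasDerivAt (x := x)).add_const _
  have hl : LocallyLipschitz fun x : ℝ => f ⟨x, y⟩ := by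
    refine hf.comp (g := fun x : ℝ => (⟨x, y⟩ : ℂ)) (LipschitzWith.locallyLipschitz (K := 1) ?_)
    refine LipschitzWith.of_dist_le_mul fun p q => ?_
    simp only [e, dist_add_right]
    rw [isometry_ofReal.dist_eq]; simp
  obtain ⟨K, hK⟩ := (hl.locallyLipschitzOn (s := uIcc a b)).exists_lipschitzOnWith_of_compact
    isCompact_uIcc
  have ac := hK.absolutelyContinuousOnInterval
  have i1 := (ac.intervalIntegrable_deriv.const_mul (-2 * l)).sub
    (intervalIntegrable_const (c := l ^ 2))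
  have i2 : 2 * l * (f ⟨a, y⟩ - f ⟨b, y⟩) - l ^ 2 * (b - a) =
      ∫ x in a..b, (-2 * l * deriv (fun x : ℝ => f ⟨x, y⟩) x - l ^ 2) := by
    rw [intervalIntegral.integral_sub (ac.intervalIntegrable_deriv.const_mul _)
      intervalIntegrable_const, intervalIntegral.integral_const_mul, ac.integral_deriv_eq_sub]
    simp; ring
  rw [i2, intervalIntegral.integral_of_le hab,
    integral_eq_lintegral_pos_part_sub_lintegral_neg_part i1.1]
  refine (ofReal_le_ofReal (sub_le_self _ toReal_nonneg)).trans (ofReal_toReal_le.trans ?_)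
  refine lintegral_mono_ae (ae_restrict_of_ae (hy.mono fun x hx => ?_))
  have hh : HasDerivAt (fun x : ℝ => f ⟨x, y⟩) _ x := hx.hasFDerivAt.comp_hasDerivAt x (hd x)
  rw [hh.deriv, ← ofReal_norm_eq_enorm, ← ENNReal.ofReal_pow (norm_nonneg _)]
  refine ofReal_le_ofReal ?_
  have := (fderiv ℝ f ⟨x, y⟩).le_opNorm 1
  rw [norm_one, mul_one, Real.norm_eq_abs] at this
  have := pow_le_pow_left₀ (abs_nonneg _) this 2
  rw [sq_abs] at this
  nlinarith [sq_nonneg (fderiv ℝ f ⟨x, y⟩ 1 + l)]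

lemma rade {f : ℂ → ℝ} (hf : LocallyLipschitz f) :
    ∀ᵐ y : ℝ, ∀ᵐ x : ℝ, DifferentiableAt ℝ f ⟨x, y⟩ := by
  have h : ∀ᵐ z : ℂ, DifferentiableAt ℝ f z := by
    have : ∀ n : ℕ, ∀ᵐ z : ℂ, z ∈ Metric.ball 0 n → DifferentiableAt ℝ f z := fun n => by
      obtain ⟨K, hK⟩ := (hf.locallyLipschitzOn (s := Metric.closedBall 0 n)).exists_lipschitzOnWith_of_compact
        (isCompact_closedBall _ _)
      filter_upwards [(hK.mono Metric.ball_subset_closedBall).ae_differentiableWithinAt_of_mem]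
        with z hz h using (hz h).differentiableAt (Metric.isOpen_ball.mem_nhds h)
    filter_upwards [ae_all_iff.2 this] with z hz
    obtain ⟨n, hn⟩ := exists_nat_gt ‖z‖
    exact hz n (by simpa using hn)
  have h2 := volume_preserving_equiv_real_prod.symm.quasiMeasurePreserving.ae h
  rw [Measure.volume_eq_prod] at h2
  exact Measure.ae_ae_of_ae_prod (Measure.measurePreserving_swap.quasiMeasurePreserving.ae h2)

lemma lower {f : ℂ → ℝ} (hf : LocallyLipschitz f) {L : ℝ} (hL : 2 ≤ L)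
    (h1 : ∀ y, |y| ≤ L → f ⟨-1, y⟩ = 1 ∧ f ⟨1, y⟩ = -1)
    (h2 : ∀ y, L + 2 ≤ 2 * |y| → f ⟨-1 / 2, y⟩ = 0 ∧ f ⟨1 / 2, y⟩ = 0) :
    ENNReal.ofReal (6 * L - 4) ≤ En f := by
  rw [En, tonelli ((measurable_fderiv ℝ f).enorm.pow_const 2)]
  have key : ∀ᵐ y : ℝ, (Icc (-L) L).indicator (fun _ => (2 : ℝ≥0∞)) y +
      ((Icc (L / 2 + 1) L).indicator (fun _ => (2 : ℝ≥0∞)) y +
      (Icc (-L) (-(L / 2 + 1))).indicator (fun _ => (2 : ℝ≥0∞)) y) ≤
      ∫⁻ x : ℝ, ‖fderiv ℝ f ⟨x, y⟩‖ₑ ^ 2 := by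
    filter_upwards [rade hf] with y hy
    have big : L + 2 ≤ 2 * |y| → |y| ≤ L → 2 + 2 ≤ ∫⁻ x : ℝ, ‖fderiv ℝ f ⟨x, y⟩‖ₑ ^ 2 := by
      intro a b
      have s1 := seg hf hy 2 (a := -1) (b := -1 / 2) (by norm_num)
      have s2 := seg hf hy 2 (a := 1 / 2) (b := 1) (by norm_num)
      rw [(h1 y b).1, (h2 y a).1] at s1
      rw [(h1 y b).2, (h2 y a).2] at s2
      norm_num at s1 s2
      refine (add_le_add s1 s2).trans ?_
      rw [← lintegral_union measurableSet_Ioc (Ioc_disjoint_Ioc_of_le (by norm_num))]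
      exact setLIntegral_le_lintegral _ _
    by_cases a : y ∈ Icc (L / 2 + 1) L
    · have : y ∉ Icc (-L) (-(L / 2 + 1)) := fun h => by linarith [a.1, h.2]
      rw [indicator_of_mem a, indicator_of_notMem this, add_zero]
      refine le_trans ?_ (big (by linarith [le_abs_self y, a.1]) (abs_le.2 ⟨by linarith [a.1], a.2⟩))
      gcongr; exact indicator_le_self _ _ y
    by_cases b : y ∈ Icc (-L) (-(L / 2 + 1))
    · rw [indicator_of_mem b, indicator_of_notMem a, zero_add]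
      refine le_trans ?_ (big (by linarith [neg_le_abs y, b.2]) (abs_le.2 ⟨b.1, by linarith [b.2]⟩))
      gcongr; exact indicator_le_self _ _ y
    rw [indicator_of_notMem a, indicator_of_notMem b, add_zero, add_zero]
    by_cases c : y ∈ Icc (-L) L
    · have s1 := seg hf hy 1 (a := -1) (b := 1) (by norm_num)
      rw [(h1 y (abs_le.2 c)).1, (h1 y (abs_le.2 c)).2] at s1
      norm_num at s1
      rw [indicator_of_mem c]
      exact s1.trans (setLIntegral_le_lintegral _ _)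
    · simp [indicator_of_notMem c]
  refine le_trans (le_of_eq ?_) (lintegral_mono_ae key)
  rw [lintegral_add_left (measurable_const.indicator measurableSet_Icc),
    lintegral_add_left (measurable_const.indicator measurableSet_Icc)]
  simp only [lintegral_indicator_const measurableSet_Icc, Real.volume_Icc]
  rw [← mul_add, ← mul_add, ← ENNReal.ofReal_add (by linarith) (by linarith),
    ← ENNReal.ofReal_add (by linarith) (by linarith), ← ENNReal.ofReal_ofNat 2,
    ← ENNReal.ofReal_mul (by norm_num)]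
  congr 1; ring

end Pool.Agent.H.MP_da2747_an
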