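import Pool.Agent.H.MP_da2747_an.A

namespace Pool.Agent.H.MP_da2747_an
open MeasureTheory Set Filter Topology ENNReal Complex

def Lp (f : ℂ → ℝ) : Prop := ∀ a b, |f a - f b| ≤ 4 * ‖a - b‖

lemma Lp.min {f g : ℂ → ℝ} (hf : Lp f) (hg : Lp g) : Lp fun z => min (f z) (g z) := fun a b =>
  (abs_min_sub_min_le_max _ _ _ _).trans (max_le (hf a b) (hg a b))

lemma Lp.max {f g : ℂ → ℝ} (hf : Lp f) (hg : Lp g) : Lp fun z => max (f z) (g z) := fun a b =>
  (abs_max_sub_max_le_max _ _ _ _).trans (max_le (hf a b) (hg a b))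

lemma aff {f : ℂ → ℝ} (β γ : ℝ) (h : ∀ a b, f a - f b = β * (a - b).re + γ * (a - b).im)
    (hb : |β| ≤ 2) (hc : |γ| ≤ 2) : Lp f := fun a b => by
  rw [h]
  refine (abs_add_le _ _).trans ?_
  rw [abs_mul, abs_mul]
  have := mul_le_mul hb (abs_re_le_norm (a - b)) (abs_nonneg _) (by norm_num)
  have := mul_le_mul hc (abs_im_le_norm (a - b)) (abs_nonneg _) (by norm_num)
  linarith

noncomputable def P (A : ℂ → ℝ) (z : ℂ) : ℝ :=
  max 0 (min (min (1 + (z.re + 1) / 100) (A z)) (min (1000001 - z.im) (1000001 + z.im)))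

noncomputable def u (A : ℂ → ℝ) (z : ℂ) : ℝ := P A z - P A (-z)

noncomputable def A1 (z : ℂ) : ℝ :=
  min ((1 - 2 * z.re) / 3) (max (-1 - 2 * z.re) (1 - 2 * z.re - 2 * z.im))

noncomputable def A2 (z : ℂ) : ℝ := -1 - 2 * z.re

lemma lp2 : Lp A2 := aff (-2) 0 (fun a b => by simp [A2]; ring) (by norm_num) (by norm_num)

lemma lp1 : Lp A1 :=
  (aff (-2 / 3) 0 (fun a b => by simp; ring) (by norm_num [abs_le]) (by norm_num)).min
    (lp2.max (aff (-2) (-2) (fun a b => by simp; ring) (by norm_num) (by norm_num)))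

lemma lpu {A : ℂ → ℝ} (h : Lp A) (a b : ℂ) : |u A a - u A b| ≤ 8 * ‖a - b‖ := by
  have hP : Lp (P A) := (aff 0 0 (fun a b => by simp) (by norm_num) (by norm_num)).max
    (((aff (1 / 100) 0 (fun a b => by simp; ring) (by norm_num [abs_le]) (by norm_num)).min h).min
      ((aff 0 (-1) (fun a b => by simp) (by norm_num) (by norm_num)).min
        (aff 0 1 (fun a b => by simp) (by norm_num) (by norm_num))))
  have h1 := abs_le.1 (hP a b)
  have h2 := abs_le.1 (hP (-a) (-b))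
  rw [neg_sub_neg, norm_sub_rev] at h2
  rw [abs_le, u, u]
  constructor <;> linarith [h1.1, h1.2, h2.1, h2.2]

lemma lipu {A : ℂ → ℝ} (h : Lp A) : LipschitzWith 8 (u A) :=
  LipschitzWith.of_dist_le_mul fun a b => by
    rw [Real.dist_eq, dist_eq_norm]; exact_mod_cast lpu h a b

lemma P0 {A : ℂ → ℝ} {z : ℂ} (h : z.re ≤ -101 ∨ A z ≤ 0 ∨ 1000001 ≤ |z.im|) : P A z = 0 := by
  refine max_eq_left ?_
  simp only [min_le_iff]
  rcases h with h | h | h
  · left; left; linarith
  · left; right; exact h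
  · right; rcases le_abs.1 h with h | h
    · left; linarith
    · right; linarith

lemma u0 {A : ℂ → ℝ} (hA : ∀ z : ℂ, 1 / 2 ≤ z.re → A z ≤ 0) {z : ℂ}
    (h : 101 ≤ |z.re| ∨ 1000001 ≤ |z.im|) : u A z = 0 := by
  rw [u, P0, P0, sub_zero]
  · rcases h with h | h
    · rcases le_abs.1 h with h | h
      · left; simpa using h
      · right; left; exact hA _ (by simp; linarith)
    · right; right; simpa using h
  · rcases h with h | h
    · rcases le_abs.1 h with h | h
      · right; left; exact hA _ (by linarith)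
      · left; linarith
    · right; right; exact h

lemma a1 (z : ℂ) (h : 1 / 2 ≤ z.re) : A1 z ≤ 0 := min_le_of_left_le (by linarith)

lemma a2 (z : ℂ) (h : 1 / 2 ≤ z.re) : A2 z ≤ 0 := by unfold A2; linarith

def lip (f : ℂ → ℝ) (z : ℂ) (K : ℝ) : Prop := ∀ᶠ w in 𝓝 z, |f w - f z| ≤ K * ‖w - z‖

lemma lip.le {f : ℂ → ℝ} {z : ℂ} {K : ℝ} (h : lip f z K) (hK : 0 ≤ K) :
    ‖fderiv ℝ f z‖ₑ ^ 2 ≤ ENNReal.ofReal (K ^ 2) := by
  rw [← ofReal_norm_eq_enorm, ← ENNReal.ofReal_pow (norm_nonneg _)]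
  exact ofReal_le_ofReal (pow_le_pow_left₀ (norm_nonneg _) (norm_fderiv_le_of_lip' ℝ (f := f) hK h) 2)

lemma lip.neg {A : ℂ → ℝ} {z : ℂ} {K : ℝ} (h : lip (u A) (-z) K) : lip (u A) z K := by
  filter_upwards [(continuous_neg.tendsto z).eventually h] with w hw
  rw [neg_sub_neg, norm_sub_rev] at hw
  rw [abs_sub_comm]
  convert hw using 2
  simp only [u, neg_neg]; ring

lemma lip_of {f : ℂ → ℝ} {z : ℂ} (α β : ℝ) (h : ∀ᶠ w in 𝓝 z, f w = α + β * w.re) :
    lip f z |β| := by
  filter_upwards [h] with w hw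
  rw [hw, h.self_of_nhds, add_sub_add_left_eq_sub, ← mul_sub, abs_mul, ← sub_re]
  exact mul_le_mul_of_nonneg_left (abs_re_le_norm _) (abs_nonneg _)

noncomputable def bx (a b c d k : ℝ) : ℂ → ℝ≥0∞ :=
  (Icc a b ×ℂ Icc c d).indicator fun _ => ENNReal.ofReal k

lemma mbx (a b c d : ℝ) : MeasurableSet (Icc a b ×ℂ Icc c d) :=
  (isClosed_Icc.reProdIm isClosed_Icc).measurableSet

lemma bx_meas (a b c d k : ℝ) : Measurable (bx a b c d k) := measurable_const.indicator (mbx _ _ _ _)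

lemma bx_int {a b c d k : ℝ} (h : a ≤ b) (hk : 0 ≤ k) :
    ∫⁻ z, bx a b c d k z = ENNReal.ofReal (k * ((b - a) * (d - c))) := by
  rw [bx, lintegral_indicator_const (mbx _ _ _ _), ENNReal.ofReal_mul hk,
    ENNReal.ofReal_mul (sub_nonneg.2 h), ← Real.volume_Icc, ← Real.volume_Icc, ← Measure.prod_prod,
    ← Measure.volume_eq_prod, ← volume_preserving_equiv_real_prod.measure_preimage_equiv]
  rfl

lemma bx_mem {a b c d : ℝ} (k : ℝ) {z : ℂ} (h1 : a ≤ z.re) (h2 : z.re ≤ b) (h3 : c ≤ z.im)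
    (h4 : z.im ≤ d) : bx a b c d k z = ENNReal.ofReal k :=
  indicator_of_mem (show z ∈ Icc a b ×ℂ Icc c d from ⟨⟨h1, h2⟩, ⟨h3, h4⟩⟩) _

lemma far {A : ℂ → ℝ} (hA : ∀ z : ℂ, 1 / 2 ≤ z.re → A z ≤ 0) {z : ℂ}
    (h : 101 < |z.re| ∨ 1000001 < |z.im|) : ‖fderiv ℝ (u A) z‖ₑ ^ 2 = 0 := by
  have : ∀ᶠ w in 𝓝 z, 101 < |w.re| ∨ 1000001 < |w.im| := h.elim
    (fun h => ((continuous_re.abs.tendsto z).eventually_const_lt h).mono fun _ => Or.inl)
    (fun h => ((continuous_im.abs.tendsto z).eventually_const_lt h).mono fun _ => Or.inr)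
  simpa using (lip_of 0 0 (this.mono fun w hw => by
    rw [u0 hA (hw.imp le_of_lt le_of_lt)]; simp)).le (abs_nonneg _)

lemma glob {A : ℂ → ℝ} (h : Lp A) (z : ℂ) : ‖fderiv ℝ (u A) z‖ₑ ^ 2 ≤ ENNReal.ofReal 64 := by
  have := lip.le (Eventually.of_forall fun w => lpu h w z) (by norm_num)
  rwa [show (8 : ℝ) ^ 2 = 64 by norm_num] at this

lemma fin2 : En (u A2) < ⊤ := by
  refine lt_of_le_of_lt (lintegral_mono (g := bx (-101) 101 (-1000001) 1000001 64) fun z => ?_) ?_
  · by_cases h : 101 < |z.re| ∨ 1000001 < |z.im|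
    · exact (far a2 h).le.trans zero_le
    · push Not at h
      rw [bx_mem _ (abs_le.1 h.1).1 (abs_le.1 h.1).2 (abs_le.1 h.2).1 (abs_le.1 h.2).2]
      exact glob lp2 z
  · rw [bx_int (by norm_num) (by norm_num)]; exact ofReal_lt_top

lemma strip {z : ℂ} (h1 : 1 < z.im) (h2 : z.im < 1000000) (a b α β : ℝ) (ha : a < z.re)
    (hb : z.re < b) (h : ∀ x, a < x → x < b → max 0 (min (1 + (x + 1) / 100) (-1 - 2 * x)) -
      max 0 (min (1 + (-x + 1) / 100) ((1 + 2 * x) / 3)) = α + β * x) : lip (u A1) z |β| := by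
  refine lip_of α β ?_
  filter_upwards [(continuous_im.tendsto z).eventually_const_lt h1,
    (continuous_im.tendsto z).eventually_lt_const h2, (continuous_re.tendsto z).eventually_const_lt ha,
    (continuous_re.tendsto z).eventually_lt_const hb] with w a b c d
  rw [← h _ c d]
  simp only [u, P, A1, neg_re, neg_im]
  have k : ∀ p q r : ℝ, min p q ≤ 1 → 1 ≤ r → min (min p q) r = min p q := fun p q r h1 h2 =>
    min_eq_left (h1.trans h2)
  congr 1
  · rw [max_eq_left (b := 1 - 2 * w.re - 2 * w.im) (by linarith)]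
    rcases le_total w.re (-1) with e | e
    · rw [k _ _ _ (min_le_of_left_le (by linarith)) (le_min (by linarith) (by linarith)),
        min_eq_left (le_min (by linarith) (by linarith)), min_eq_left (by linarith)]
    · rw [min_eq_right (a := (1 - 2 * w.re) / 3) (by linarith),
        k _ _ _ (min_le_of_right_le (by linarith)) (le_min (by linarith) (by linarith))]
  · rw [show 1 - 2 * -w.re = 1 + 2 * w.re by ring]
    rcases le_total w.re (-1) with e | e
    · rw [max_eq_left (min_le_of_left_le (min_le_of_right_le (min_le_of_left_le (by linarith)))),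
        max_eq_left (min_le_of_right_le (by linarith))]
    · rw [min_eq_left (a := (1 + 2 * w.re) / 3) (le_max_of_le_right (by linarith)),
        k _ _ _ ((le_total w.re 1).elim (fun e => min_le_of_right_le (by linarith))
          fun e => min_le_of_left_le (by linarith)) (le_min (by linarith) (by linarith))]

noncomputable def G (z : ℂ) : ℝ≥0∞ := bx (-1) (-1 / 2) 0 1000001 4 z +
  bx (-1 / 2) 1 0 1000001 (4 / 9) z + bx (-101) 101 0 1000001 (1 / 10000) z +
  bx (-101) 101 0 1 64 z + bx (-101) 101 1000000 1000001 64 z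

lemma half {z : ℂ} (h0 : 0 ≤ z.im) (n : z.re ≠ -1 ∧ z.re ≠ -1 / 2 ∧ z.re ≠ 1 ∧ |z.re| ≠ 101) :
    ∃ K, 0 ≤ K ∧ lip (u A1) z K ∧
      (ENNReal.ofReal (K ^ 2) ≤ G z ∨ 101 < |z.re| ∨ 1000001 < |z.im|) := by
  have g8 : lip (u A1) z 8 := Eventually.of_forall fun w => lpu lp1 w z
  by_cases h : 101 < |z.re| ∨ 1000001 < |z.im|
  · exact ⟨8, by norm_num, g8, Or.inr h⟩
  push Not at h
  obtain ⟨r1, r2⟩ := abs_lt.1 (lt_of_le_of_ne h.1 n.2.2.2)
  have i2 := (abs_le.1 h.2).2
  rcases le_or_gt z.im 1 with h1 | h1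
  · refine ⟨8, by norm_num, g8, Or.inl ?_⟩
    rw [G, bx_mem 64 r1.le r2.le h0 h1, show (8 : ℝ) ^ 2 = 64 by norm_num]
    exact le_add_right le_add_self
  rcases le_or_gt 1000000 z.im with h2 | h2
  · refine ⟨8, by norm_num, g8, Or.inl ?_⟩
    rw [G, bx_mem 64 r1.le r2.le h2 i2, show (8 : ℝ) ^ 2 = 64 by norm_num]
    exact le_add_self
  rcases lt_or_gt_of_ne n.1 with c1 | c1
  · refine ⟨_, abs_nonneg _, strip h1 h2 _ _ (101 / 100) (1 / 100) r1 c1 fun x a b => ?_, Or.inl ?_⟩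
    · simp only [max_def, min_def]; split_ifs <;> linarith
    · rw [G, bx_mem (1 / 10000) r1.le r2.le h0 i2, sq_abs, show (1 / 100 : ℝ) ^ 2 = 1 / 10000 by norm_num]
      exact le_add_right (le_add_right le_add_self)
  rcases lt_or_gt_of_ne n.2.1 with c2 | c2
  · refine ⟨_, abs_nonneg _, strip h1 h2 _ _ (-1) (-2) c1 c2 fun x a b => ?_, Or.inl ?_⟩
    · simp only [max_def, min_def]; split_ifs <;> linarith
    · rw [G, bx_mem 4 c1.le c2.le h0 i2, sq_abs, show (-2 : ℝ) ^ 2 = 4 by norm_num]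
      exact le_add_right (le_add_right (le_add_right le_self_add))
  rcases lt_or_gt_of_ne n.2.2.1 with c3 | c3
  · refine ⟨_, abs_nonneg _, strip h1 h2 _ _ (-1 / 3) (-2 / 3) c2 c3 fun x a b => ?_, Or.inl ?_⟩
    · simp only [max_def, min_def]; split_ifs <;> linarith
    · rw [G, bx_mem (4 / 9) c2.le c3.le h0 i2, sq_abs, show (-2 / 3 : ℝ) ^ 2 = 4 / 9 by norm_num]
      exact le_add_right (le_add_right (le_add_right le_add_self))
  · refine ⟨_, abs_nonneg _, strip h1 h2 _ _ (-101 / 100) (1 / 100) c3 r2 fun x a b => ?_, Or.inl ?_⟩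
    · simp only [max_def, min_def]; split_ifs <;> linarith
    · rw [G, bx_mem (1 / 10000) r1.le r2.le h0 i2, sq_abs, show (1 / 100 : ℝ) ^ 2 = 1 / 10000 by norm_num]
      exact le_add_right (le_add_right le_add_self)

lemma upper : En (u A1) < ENNReal.ofReal (6 * 1000000 - 4) := by
  have m : Measurable G := by
    unfold G
    exact ((((bx_meas ..).add (bx_meas ..)).add (bx_meas ..)).add (bx_meas ..)).add (bx_meas ..)
  have q : Measure.QuasiMeasurePreserving re :=
    Measure.quasiMeasurePreserving_fst.comp volume_preserving_equiv_real_prod.quasiMeasurePreserving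
  have key : ∀ᵐ z : ℂ, ‖fderiv ℝ (u A1) z‖ₑ ^ 2 ≤ G z + G (-z) := by
    filter_upwards [q.ae ((Set.toFinite {(-1 : ℝ), -1 / 2, 1, 1 / 2, 101, -101}).countable.ae_notMem _)]
      with z hz
    simp only [mem_insert_iff, mem_singleton_iff, not_or] at hz
    have h : |z.re| ≠ 101 := fun h => by
      rcases (abs_eq (by norm_num)).1 h with h | h <;> tauto
    rcases le_total 0 z.im with c | c
    · obtain ⟨K, k0, k1, k2 | k2⟩ := half c ⟨hz.1, hz.2.1, hz.2.2.1, h⟩
      · exact ((k1.le k0).trans k2).trans le_self_add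
      · exact (far a1 k2).le.trans zero_le
    · obtain ⟨K, k0, k1, k2 | k2⟩ := half (z := -z) (by simpa using c) ⟨fun e => hz.2.2.1 (by
        rw [neg_re] at e; linarith), fun e => hz.2.2.2.1 (by rw [neg_re] at e; linarith),
        fun e => hz.1 (by rw [neg_re] at e; linarith), by simpa using h⟩
      · exact ((k1.neg.le k0).trans k2).trans le_add_self
      · exact (far a1 (by simpa using k2)).le.trans zero_le
  refine (lintegral_mono_ae key).trans_lt ?_
  rw [lintegral_add_left m, lintegral_neg_eq_self]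
  unfold G
  rw [lintegral_add_right _ (bx_meas ..), lintegral_add_right _ (bx_meas ..),
    lintegral_add_right _ (bx_meas ..), lintegral_add_right _ (bx_meas ..)]
  repeat rw [bx_int (by norm_num) (by norm_num)]
  repeat rw [← ENNReal.ofReal_add (by norm_num) (by norm_num)]
  exact (ofReal_lt_ofReal_iff (by norm_num)).2 (by norm_num)

end Pool.Agent.H.MP_da2747_an
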